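import Pool.Agent.R133.HadMain

/-!
# Hadamard products of Jacobi-Trudi matrices: a determinant that is not monomial positive

`k = 2`, `n = 3`, `τ = 1`: the Temperley-Lieb immanant is the determinant. For the skew shapes
`(17,15,15)/(2,2,0)` and `(17,17,15)/(2,0,0)` the coefficient of the squarefree monomial
`x_0 x_1 ⋯ x_42 y_0 y_1 ⋯ y_46` is negative.

Why: at a squarefree monomial the entry `e_r` acts as `1 / r!`. Up to scaling rows and columns the
two matrices `(1 / r_ij!)` are close to `[[1,1,0],[1,1,1],[1,1,1]]` and
`[[1,1,1],[1,1,1],[0,1,1]]` (this is exact in the limit of large shapes of the same kind), and the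
entrywise product of these two totally nonnegative matrices has determinant `-1`.
-/

set_option autoImplicit false

namespace Pool.Agent.Results.MP_f8aafe_co.NegativeCoefficient

open Pool.Agent.R133.Had

/-- The entrywise (Hadamard) product `A_1 * A_2 * ⋯ * A_k` of `k` matrices. -/
def hadamardAll {k n : ℕ} {R : Type*} [CommRing R] (A : Fin k → Matrix (Fin n) (Fin n) R) :
    Matrix (Fin n) (Fin n) R :=
  Matrix.of fun a b => ∏ i, A i a b

/-- The two skew shapes `(17,15,15)/(2,2,0)` and `(17,17,15)/(2,0,0)`. -/
def shapes : Fin 2 → SkewShape 3 := ![shapeA, shapeB]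

/-- All parts of the outer partitions are positive (so both shapes have exactly `3` rows), and the
coefficient of the squarefree monomial `∏_{j < 43} x^(0)_j ∏_{j < 47} x^(1)_j` in
`F = det (A_1 * A_2)`, `A_i` the Jacobi-Trudi matrix of the `i`-th shape in the `i`-th sequence of
variables, is negative. -/
theorem result :
    (∀ i a, 0 < (shapes i).outer a) ∧
    MvPowerSeries.coeff (ind S0) (Matrix.det (hadamardAll fun i => JT i (shapes i))) =
      -1611163779164739093850254117352672200 ∧
    MvPowerSeries.coeff (ind S0) (Matrix.det (hadamardAll fun i => JT i (shapes i))) < 0 := by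
  have h : (hadamardAll fun i => JT i (shapes i)) =
      Matrix.hadamard (JT (0 : Fin 2) shapeA) (JT (1 : Fin 2) shapeB) := by
    ext1 a b
    rw [hadamardAll, Matrix.of_apply, Fin.prod_univ_two, Matrix.hadamard_apply]
    rfl
  refine ⟨by decide, ?_, ?_⟩
  · rw [h, coeff_det]
  · rw [h, coeff_det]
    norm_num

end Pool.Agent.Results.MP_f8aafe_co.NegativeCoefficient
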